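import Mathlib

set_option autoImplicit false
set_option linter.unusedSectionVars false

open Finset

universe u v

namespace Pool.Agent.Results.MP_d6aa4f_al.RegularSeparation

/-- Flatness of a left `R`-module `M` (equational criterion): every linear relation in `M`
is a consequence of linear relations in `R`. -/
def EqFlat (R : Type u) [Ring R] (M : Type v) [AddCommGroup M] [Module R M] : Prop :=
  ∀ (n : ℕ) (r : Fin n → R) (m : Fin n → M), ∑ i, r i • m i = 0 →
    ∃ (k : ℕ) (s : Fin n → Fin k → R) (y : Fin k → M),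
      (∀ i, m i = ∑ j, s i j • y j) ∧ ∀ j, ∑ i, r i * s i j = 0

/-- The left module `M` has a flat resolution `0 → F₁ → F₀ → M → 0` of length `1`. -/
def FlatDimLEOne (R : Type u) [Ring R] (M : Type u) [AddCommGroup M] [Module R M] : Prop :=
  ∃ (F₀ F₁ : Type u) (_ : AddCommGroup F₀) (_ : AddCommGroup F₁) (_ : Module R F₀)
    (_ : Module R F₁) (i : F₁ →ₗ[R] F₀) (p : F₀ →ₗ[R] M),
    EqFlat R F₀ ∧ EqFlat R F₁ ∧ Function.Injective i ∧ Function.Surjective p ∧
      LinearMap.range i = LinearMap.ker p

/-- The weak global dimension of `R` is one: every left module has flat dimension at most one,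
and some left module is not flat. -/
def WeakGlDimEqOne (R : Type u) [Ring R] : Prop :=
  (∀ (M : Type u) [AddCommGroup M] [Module R M], FlatDimLEOne R M) ∧
    ∃ (M : Type u) (_ : AddCommGroup M) (_ : Module R M), ¬ EqFlat R M

section flat

variable {R : Type u} [Ring R]

lemma flat_system {M : Type v} [AddCommGroup M] [Module R M] (hM : EqFlat R M) :
    ∀ (p n : ℕ) (r : Fin p → Fin n → R) (m : Fin n → M), (∀ i, ∑ j, r i j • m j = 0) →
    ∃ (k : ℕ) (s : Fin n → Fin k → R) (y : Fin k → M),
      (∀ j, m j = ∑ l, s j l • y l) ∧ ∀ i l, ∑ j, r i j * s j l = 0 := by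
  intro p
  induction p with
  | zero =>
    intro n r m _
    refine ⟨n, fun i j => if i = j then 1 else 0, m, ?_, fun i => i.elim0⟩
    intro j
    simp
  | succ p ih =>
    intro n r m h
    obtain ⟨k, s, y, h1, h2⟩ := ih n (fun i => r i.succ) m (fun i => h i.succ)
    have h3 : ∑ l, (∑ j, r 0 j * s j l) • y l = 0 := by
      rw [← h 0]
      simp only [Finset.sum_smul, mul_smul]
      rw [Finset.sum_comm]
      apply Finset.sum_congr rfl
      intro j _
      conv_rhs => rw [h1 j, Finset.smul_sum]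
    obtain ⟨q, t, z, h4, h5⟩ := hM k (fun l => ∑ j, r 0 j * s j l) y h3
    refine ⟨q, fun j c => ∑ l, s j l * t l c, z, ?_, ?_⟩
    · intro j
      rw [h1 j]
      simp only [Finset.sum_smul, mul_smul]
      rw [Finset.sum_comm]
      apply Finset.sum_congr rfl
      intro l _
      rw [← Finset.smul_sum, ← h4 l]
    · intro i
      refine Fin.cases ?_ ?_ i
      · intro c
        rw [← h5 c]
        simp only [Finset.mul_sum, Finset.sum_mul, mul_assoc]
        rw [Finset.sum_comm]
      · intro i c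
        simp only [Finset.mul_sum]
        rw [Finset.sum_comm]
        apply Finset.sum_eq_zero
        intro l _
        simp_rw [← mul_assoc]
        rw [← Finset.sum_mul, h2 i l, zero_mul]

lemma flat_ker {P F : Type v} [AddCommGroup P] [Module R P] [AddCommGroup F] [Module R F]
    (hP : EqFlat R P) (hF : EqFlat R F) (f : P →ₗ[R] F) (hf : Function.Surjective f) :
    EqFlat R (LinearMap.ker f) := by
  intro n r m h
  have h' : ∑ i, r i • (m i : P) = 0 := by
    have := congrArg (Submodule.subtype _) h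
    simpa using this
  obtain ⟨k, s, y, h1, h2⟩ := hP n r (fun i => (m i : P)) h'
  have h3 : ∀ i : Fin n, ∑ j, s i j • f (y j) = 0 := by
    intro i
    have h4 : f (m i : P) = 0 := (m i).2
    rw [h1 i] at h4
    simpa using h4
  obtain ⟨q, t, z, h4, h5⟩ := flat_system hF n k s (fun j => f (y j)) h3
  choose w hw using (fun c => hf (z c))
  have hy' : ∀ j, y j - ∑ c, t j c • w c ∈ LinearMap.ker f := by
    intro j
    rw [LinearMap.mem_ker, map_sub, map_sum]
    simp only [map_smul, hw]
    rw [h4 j, sub_self]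
  refine ⟨k, s, fun j => ⟨y j - ∑ c, t j c • w c, hy' j⟩, ?_, h2⟩
  intro i
  apply Subtype.ext
  have h6 : ∑ j, s i j • ∑ c, t j c • w c = 0 := by
    simp only [Finset.smul_sum, ← mul_smul]
    rw [Finset.sum_comm]
    apply Finset.sum_eq_zero
    intro c _
    rw [← Finset.sum_smul, h5 i c, zero_smul]
  rw [h1 i]
  simp only [Submodule.coe_sum, Submodule.coe_smul, smul_sub, Finset.sum_sub_distrib]
  rw [h6, sub_zero]

lemma flat_prod {P F : Type v} [AddCommGroup P] [Module R P] [AddCommGroup F] [Module R F]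
    (hP : EqFlat R P) (hF : EqFlat R F) : EqFlat R (P × F) := by
  intro n r m h
  have h1 : ∑ i, r i • (m i).1 = 0 := by
    have := congrArg Prod.fst h
    simpa [Prod.fst_sum] using this
  have h2 : ∑ i, r i • (m i).2 = 0 := by
    have := congrArg Prod.snd h
    simpa [Prod.snd_sum] using this
  obtain ⟨k1, s1, y1, a1, b1⟩ := hP n r _ h1
  obtain ⟨k2, s2, y2, a2, b2⟩ := hF n r _ h2
  refine ⟨k1 + k2, fun i => Fin.append (s1 i) (s2 i),
    Fin.append (fun j => (y1 j, 0)) (fun j => (0, y2 j)), ?_, ?_⟩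
  · intro i
    rw [Fin.sum_univ_add]
    simp only [Fin.append_left, Fin.append_right]
    apply Prod.ext
    · simp [Prod.fst_sum, ← a1 i]
    · simp [Prod.snd_sum, ← a2 i]
  · intro j
    refine Fin.addCases ?_ ?_ j
    · intro j
      simp only [Fin.append_left]
      exact b1 j
    · intro j
      simp only [Fin.append_right]
      exact b2 j

lemma flat_free (n : ℕ) : EqFlat R (Fin n → R) := by
  intro m r v h
  refine ⟨n, fun i j => v i j, fun j => Pi.single j 1, ?_, ?_⟩
  · intro i
    ext j
    simp [Finset.sum_apply, Pi.single_apply]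
  · intro j
    have := congrFun h j
    simpa [Finset.sum_apply] using this

lemma flat_equiv {M N : Type v} [AddCommGroup M] [Module R M] [AddCommGroup N] [Module R N]
    (e : M ≃ₗ[R] N) (hM : EqFlat R M) : EqFlat R N := by
  intro n r m h
  obtain ⟨k, s, y, h1, h2⟩ := hM n r (fun i => e.symm (m i)) (by
    have := congrArg e.symm h
    simpa using this)
  refine ⟨k, s, fun j => e (y j), ?_, h2⟩
  intro i
  have := congrArg e (h1 i)
  simpa using this

lemma map_sum_smul_aux {n : ℕ} (K : Submodule R (Fin n → R)) (v : Fin n → R) :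
    K.mkQ v = ∑ j, v j • K.mkQ (Pi.single j 1) := by
  conv_lhs => rw [pi_eq_sum_univ' v]
  rw [map_sum]
  apply Finset.sum_congr rfl
  intro j _
  rw [map_smul]

/-- If every left module has a flat resolution of length one then submodules of `Rⁿ` are flat. -/
lemma flat_sub (h : ∀ (M : Type u) [AddCommGroup M] [Module R M], FlatDimLEOne R M) (n : ℕ)
    (K : Submodule R (Fin n → R)) : EqFlat R K := by
  obtain ⟨F₀, F₁, _, _, _, _, i, p, hF₀, hF₁, hi, hp, hex⟩ := h ((Fin n → R) ⧸ K)
  -- lift the quotient map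
  choose w hw using (fun j : Fin n => hp (K.mkQ (Pi.single j 1)))
  let g : (Fin n → R) →ₗ[R] F₀ := 
    { toFun := fun v => ∑ j, v j • w j
      map_add' := by
        intro a b
        simp [add_smul, Finset.sum_add_distrib]
      map_smul' := by
        intro a b
        simp [mul_smul, Finset.smul_sum] }
  have hg : ∀ v, p (g v) = K.mkQ v := by
    intro v
    change p (∑ j, v j • w j) = K.mkQ v
    rw [map_sum]
    simp only [map_smul, hw]
    exact (map_sum_smul_aux K v).symm
  let Ψ : F₁ × (Fin n → R) →ₗ[R] F₀ := LinearMap.coprod i g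
  have hΨ : Function.Surjective Ψ := by
    intro x
    obtain ⟨v, hv⟩ := K.mkQ_surjective (p x)
    have h1 : x - g v ∈ LinearMap.ker p := by
      rw [LinearMap.mem_ker, map_sub, hg, hv, sub_self]
    rw [← hex] at h1
    obtain ⟨a, ha⟩ := h1
    refine ⟨(a, v), ?_⟩
    simp [Ψ, LinearMap.coprod_apply, ha]
  have hk := flat_ker (flat_prod hF₁ (flat_free (R := R) n)) hF₀ Ψ hΨ
  have hmem : ∀ x : LinearMap.ker Ψ, (x : F₁ × (Fin n → R)).2 ∈ K := by
    intro x
    have h1 : i (x : F₁ × (Fin n → R)).1 + g (x : F₁ × (Fin n → R)).2 = 0 := x.2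
    have h2 : g (x : F₁ × (Fin n → R)).2 = i (-(x : F₁ × (Fin n → R)).1) := by
      rw [map_neg]; exact eq_neg_of_add_eq_zero_right h1
    have h3 : p (g (x : F₁ × (Fin n → R)).2) = 0 := by
      rw [h2]
      have : i (-(x : F₁ × (Fin n → R)).1) ∈ LinearMap.ker p := by
        rw [← hex]; exact ⟨_, rfl⟩
      exact this
    rw [hg] at h3
    rwa [Submodule.mkQ_apply, Submodule.Quotient.mk_eq_zero] at h3
  let e0 : LinearMap.ker Ψ →ₗ[R] K :=
    LinearMap.codRestrict K ((LinearMap.snd R F₁ (Fin n → R)).comp (Submodule.subtype _)) hmem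
  have he0 : Function.Bijective e0 := by
    constructor
    · intro x y hxy
      have h2 : (x : F₁ × (Fin n → R)).2 = (y : F₁ × (Fin n → R)).2 := congrArg Subtype.val hxy
      have hx : i (x : F₁ × (Fin n → R)).1 + g (x : F₁ × (Fin n → R)).2 = 0 := x.2
      have hy : i (y : F₁ × (Fin n → R)).1 + g (y : F₁ × (Fin n → R)).2 = 0 := y.2
      rw [h2] at hx
      have h3 : i (x : F₁ × (Fin n → R)).1 = i (y : F₁ × (Fin n → R)).1 := by
        have := hx.trans hy.symm
        exact add_right_cancel this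
      exact Subtype.ext (Prod.ext (hi h3) h2)
    · intro v
      have h1 : g (v : Fin n → R) ∈ LinearMap.ker p := by
        rw [LinearMap.mem_ker, hg, Submodule.mkQ_apply, Submodule.Quotient.mk_eq_zero]
        exact v.2
      rw [← hex] at h1
      obtain ⟨a, ha⟩ := h1
      refine ⟨⟨(-a, (v : Fin n → R)), ?_⟩, ?_⟩
      · rw [LinearMap.mem_ker]
        simp [Ψ, LinearMap.coprod_apply, ha]
      · apply Subtype.ext
        rfl
  exact flat_equiv (LinearEquiv.ofBijective e0 he0) hk

/-- Annihilator property of square matrices over a ring with weak dimension at most one. -/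
lemma pf_fin (h : ∀ (M : Type u) [AddCommGroup M] [Module R M], FlatDimLEOne R M) (n : ℕ)
    (f g : Matrix (Fin n) (Fin n) R) (hfg : f * g = 0) :
    ∃ k : Matrix (Fin n) (Fin n) R, f * k = f ∧ k * g = 0 := by
  set K : Submodule R (Fin n → R) := Submodule.span R (Set.range g) with hK
  have hflat := flat_sub h n K
  let m : Fin n → K := fun j => ⟨g j, Submodule.subset_span ⟨j, rfl⟩⟩
  have hrel : ∀ i, ∑ j, f i j • m j = 0 := by
    intro i
    apply Subtype.ext
    simp only [Submodule.coe_sum, Submodule.coe_smul, m, Submodule.coe_zero]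
    ext c
    have := congrFun (congrFun hfg i) c
    rw [Matrix.mul_apply] at this
    simpa [Finset.sum_apply] using this
  obtain ⟨k, s, y, h1, h2⟩ := flat_system hflat n n f m hrel
  have hy : ∀ l, ∃ c : Fin n → R, ∑ j, c j • g j = (y l : Fin n → R) := by
    intro l
    have this : (y l : Fin n → R) ∈ Submodule.span R (Set.range g) := (y l).2
    exact (Submodule.mem_span_range_iff_exists_fun R).1 this
  choose c hc using hy
  have hg : ∀ j, g j = ∑ l, s j l • ∑ q, c l q • g q := by
    intro j
    have := congrArg (Submodule.subtype K) (h1 j)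
    simp only [map_sum, map_smul, Submodule.subtype_apply, m] at this
    rw [this]
    apply Finset.sum_congr rfl
    intro l _
    rw [hc l]
  let k' : Matrix (Fin n) (Fin n) R := fun j q => ∑ l, s j l * c l q
  have hk1 : k' * g = g := by
    ext j q
    rw [Matrix.mul_apply]
    have := congrFun (hg j) q
    rw [this]
    simp only [Finset.sum_apply, Pi.smul_apply, smul_eq_mul, k', Finset.sum_mul, Finset.mul_sum,
      mul_assoc]
    rw [Finset.sum_comm]
  have hk2 : f * k' = 0 := by
    ext i q
    rw [Matrix.mul_apply]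
    simp only [k', Finset.mul_sum, ← mul_assoc, Matrix.zero_apply]
    rw [Finset.sum_comm]
    apply Finset.sum_eq_zero
    intro l _
    rw [← Finset.sum_mul, h2 i l, zero_mul]
  refine ⟨1 - k', ?_, ?_⟩
  · rw [mul_sub, hk2, mul_one, sub_zero]
  · rw [sub_mul, hk1, one_mul, sub_self]

lemma pf_fintype (h : ∀ (M : Type u) [AddCommGroup M] [Module R M], FlatDimLEOne R M)
    {ι : Type*} [Fintype ι] [DecidableEq ι]
    (f g : Matrix ι ι R) (hfg : f * g = 0) :
    ∃ k : Matrix ι ι R, f * k = f ∧ k * g = 0 := by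
  let e : Fin (Fintype.card ι) ≃ ι := (Fintype.equivFin ι).symm
  obtain ⟨k0, h1, h2⟩ := pf_fin h (Fintype.card ι) (f.submatrix e e) (g.submatrix e e) (by
    rw [Matrix.submatrix_mul_equiv, hfg]; rfl)
  have hk0 : k0 = (k0.submatrix e.symm e.symm).submatrix e e := by
    ext i j; simp
  rw [hk0, Matrix.submatrix_mul_equiv] at h1 h2
  refine ⟨k0.submatrix e.symm e.symm, ?_, ?_⟩
  · ext i j
    have := congrFun (congrFun h1 (e.symm i)) (e.symm j)
    simpa using this
  · ext i j
    have := congrFun (congrFun h2 (e.symm i)) (e.symm j)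
    simpa using this

end flat

section ps

variable {A : Type u} [Ring A] {ι : Type} [Fintype ι] [DecidableEq ι]

/-- coefficient matrix -/
noncomputable def cf (N : ℕ) (M : Matrix ι ι (PowerSeries A)) : Matrix ι ι A :=
  fun p q => PowerSeries.coeff N (M p q)

/-- matrix of power series with given coefficient matrices -/
noncomputable def ps (F : ℕ → Matrix ι ι A) : Matrix ι ι (PowerSeries A) :=
  fun p q => PowerSeries.mk (fun i => F i p q)

lemma cf_ps (F : ℕ → Matrix ι ι A) (N : ℕ) : cf N (ps F) = F N := by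
  ext p q
  simp [cf, ps]

lemma cf_mul (N : ℕ) (M M' : Matrix ι ι (PowerSeries A)) :
    cf N (M * M') = ∑ x ∈ Finset.HasAntidiagonal.antidiagonal N, cf x.1 M * cf x.2 M' := by
  ext p q
  simp only [cf, Matrix.mul_apply, map_sum, PowerSeries.coeff_mul, Matrix.sum_apply]
  rw [Finset.sum_comm]

lemma cf_ext (M M' : Matrix ι ι (PowerSeries A)) (h : ∀ N, cf N M = cf N M') : M = M' := by
  ext p q N
  exact congrFun (congrFun (h N) p) q

/-- the annihilator property for sequences of matrices -/
lemma pf_seq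
    (h : ∀ (M : Type u) [AddCommGroup M] [Module (PowerSeries A) M], FlatDimLEOne (PowerSeries A) M)
    (F G : ℕ → Matrix ι ι A)
    (hFG : ∀ N, ∑ x ∈ Finset.HasAntidiagonal.antidiagonal N, F x.1 * G x.2 = 0) :
    ∃ k : ℕ → Matrix ι ι A, (∀ N, ∑ x ∈ Finset.HasAntidiagonal.antidiagonal N, F x.1 * k x.2 = F N) ∧
      ∀ N, ∑ x ∈ Finset.HasAntidiagonal.antidiagonal N, k x.1 * G x.2 = 0 := by
  obtain ⟨k, h1, h2⟩ := pf_fintype h (ps F) (ps G) (by
    apply cf_ext
    intro N
    rw [cf_mul]
    simp only [cf_ps]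
    rw [hFG N]
    ext p q
    simp [cf])
  refine ⟨fun i => cf i k, ?_, ?_⟩
  · intro N
    have := congrArg (cf N) h1
    rw [cf_mul] at this
    simpa only [cf_ps] using this
  · intro N
    have := congrArg (cf N) h2
    rw [cf_mul] at this
    simp only [cf_ps] at this
    rw [this]
    ext p q
    simp [cf]

/-- regularity of the matrix ring -/
lemma regular_matrix
    (h : ∀ (M : Type u) [AddCommGroup M] [Module (PowerSeries A) M], FlatDimLEOne (PowerSeries A) M)
    (a : Matrix ι ι A) : ∃ y, a = a * y * a := by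
  -- the matrices `a` and `X` over power series
  let a' : Matrix ι ι (PowerSeries A) := fun p q => PowerSeries.C (a p q)
  let X' : Matrix ι ι (PowerSeries A) := fun p q => if p = q then PowerSeries.X else 0
  have hXe : ∀ p q, X' p q = if p = q then PowerSeries.X else 0 := fun _ _ => rfl
  have hae : ∀ p q, a' p q = PowerSeries.C (a p q) := fun _ _ => rfl
  have hmX : ∀ (M : Matrix ι ι (PowerSeries A)) (p q : ι), (M * X') p q = M p q * PowerSeries.X := by
    intro M p q
    rw [Matrix.mul_apply]
    simp [hXe]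
  have hXm : ∀ (M : Matrix ι ι (PowerSeries A)) (p q : ι), (X' * M) p q = PowerSeries.X * M p q := by
    intro M p q
    rw [Matrix.mul_apply]
    simp [hXe]
  have hcomm : ∀ M : Matrix ι ι (PowerSeries A), X' * M = M * X' := by
    intro M
    ext p q : 2
    rw [hmX, hXm, PowerSeries.X_mul]
  have hX0 : ∀ M : Matrix ι ι (PowerSeries A), cf 0 (M * X') = 0 := by
    intro M
    ext p q
    simp only [cf]
    rw [hmX, PowerSeries.coeff_zero_mul_X]
    rfl
  have hX1 : ∀ M : Matrix ι ι (PowerSeries A), cf 1 (M * X') = cf 0 M := by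
    intro M
    ext p q
    simp only [cf]
    rw [hmX]
    exact PowerSeries.coeff_succ_mul_X 0 (M p q)
  have ha0 : cf 0 a' = a := by
    ext p q
    simp only [cf]
    rw [hae]
    simp
  have ha1 : ∀ (N : ℕ) (M : Matrix ι ι (PowerSeries A)), cf N (M * a') = cf N M * a := by
    intro N M
    ext p q
    rw [Matrix.mul_apply]
    simp only [cf]
    rw [Matrix.mul_apply, map_sum]
    simp only [hae, PowerSeries.coeff_mul_C]
  have ha2 : ∀ (N : ℕ) (M : Matrix ι ι (PowerSeries A)), cf N (a' * M) = a * cf N M := by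
    intro N M
    ext p q
    rw [Matrix.mul_apply]
    simp only [cf]
    rw [Matrix.mul_apply, map_sum]
    simp only [hae, PowerSeries.coeff_C_mul]
  have hadd : ∀ (N : ℕ) (M M' : Matrix ι ι (PowerSeries A)), cf N (M + M') = cf N M + cf N M' := by
    intro N M M'
    ext p q
    simp [cf]
  have hneg : ∀ (N : ℕ) (M : Matrix ι ι (PowerSeries A)), cf N (-M) = - cf N M := by
    intro N M
    ext p q
    simp [cf]
  have hzero : ∀ N : ℕ, cf N (0 : Matrix ι ι (PowerSeries A)) = 0 := by
    intro N
    ext p q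
    simp [cf]
  obtain ⟨k, h1, h2⟩ := pf_fintype h (Matrix.fromBlocks X' (-a') 0 0)
    (Matrix.fromBlocks a' 0 X' 0) (by
      rw [Matrix.fromBlocks_multiply]
      simp [hcomm a'])
  rw [← Matrix.fromBlocks_toBlocks k, Matrix.fromBlocks_multiply, Matrix.fromBlocks_inj] at h1
  rw [← Matrix.fromBlocks_toBlocks k, Matrix.fromBlocks_multiply] at h2
  have h2' := congrArg Matrix.toBlocks₂₁ h2
  rw [Matrix.toBlocks_fromBlocks₂₁] at h2'
  have e1 := h1.2.1
  -- e1 : X' * k12 + (-a') * k22 = -a'
  have e1' := congrArg (cf 0) e1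
  have e2' := congrArg (cf 1) h2'
  rw [hadd, hcomm, hX0, Matrix.neg_mul, hneg, ha2, hneg, ha0, zero_add] at e1'
  have hz : (0 : Matrix (ι ⊕ ι) (ι ⊕ ι) (PowerSeries A)).toBlocks₂₁ = 0 := rfl
  rw [hz, hadd, hX1, ha1, hzero] at e2'
  have e3 : a = a * cf 0 k.toBlocks₂₂ := (neg_injective e1').symm
  have e4 : cf 0 k.toBlocks₂₂ = - (cf 1 k.toBlocks₂₁ * a) := eq_neg_of_add_eq_zero_right e2'
  refine ⟨- cf 1 k.toBlocks₂₁, ?_⟩
  rw [mul_neg, neg_mul, mul_assoc, ← mul_neg, ← e4]
  exact e3

end ps

section sep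

variable {S : Type u} [Ring S]

/-- one step: enlarge an idempotent `e` so that `a e' = a` -/
lemma step_left (hreg : ∀ a : S, ∃ y, a = a * y * a) (e a : S) (he : e * e = e) :
    ∃ e' : S, e' * e' = e' ∧ e * e' = e ∧ e' * e = e ∧ a * e' = a ∧
      ∀ b, e * b = 0 → a * b = 0 → e' * b = 0 := by
  obtain ⟨w, hw⟩ := hreg (a * (1 - e))
  set c := a * (1 - e) with hc
  have hce : c * e = 0 := by
    rw [hc, mul_assoc, sub_mul, one_mul, he, sub_self, mul_zero]
  set h := (1 - e) * (w * c) with hh
  have heh : e * h = 0 := by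
    rw [hh, ← mul_assoc, mul_sub, mul_one, he, sub_self, zero_mul]
  have hhe : h * e = 0 := by
    rw [hh, mul_assoc, mul_assoc, hce, mul_zero, mul_zero]
  have hch : c * h = c := by
    have h1 : c * (1 - e) = c := by rw [mul_sub, mul_one, hce, sub_zero]
    rw [hh, ← mul_assoc, h1, ← mul_assoc]
    exact hw.symm
  have hhh : h * h = h := by
    conv_lhs => rw [hh]
    rw [mul_assoc, mul_assoc, ← hh, hch]
  refine ⟨e + h, ?_, ?_, ?_, ?_, ?_⟩
  · rw [add_mul, mul_add, mul_add, he, heh, hhe, hhh]; simp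
  · rw [mul_add, he, heh, add_zero]
  · rw [add_mul, he, hhe, add_zero]
  · have h1 : a = a * e + c := by rw [hc, mul_sub, mul_one]; abel
    have h2 : a * h = c := by
      calc a * h = (a * e + c) * h := by rw [← h1]
        _ = a * (e * h) + c * h := by rw [add_mul, mul_assoc]
        _ = c := by rw [heh, mul_zero, zero_add, hch]
    rw [mul_add, h2]
    exact h1.symm
  · intro b h1 h2
    have h3 : c * b = 0 := by
      rw [hc, mul_assoc, sub_mul, one_mul, h1, sub_zero, h2]
    rw [add_mul, h1, hh, mul_assoc, mul_assoc, h3, mul_zero, mul_zero, add_zero]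

/-- the chain of idempotents attached to a sequence -/
lemma chain_left (hreg : ∀ a : S, ∃ y, a = a * y * a) (a : ℕ → S) :
    ∃ e : ℕ → S, (∀ n, e n * e n = e n) ∧ e 0 = 0 ∧ (∀ n, e n * e (n + 1) = e n) ∧
      (∀ n, e (n + 1) * e n = e n) ∧ (∀ n, a n * e (n + 1) = a n) ∧
      ∀ b, (∀ i, a i * b = 0) → ∀ n, e n * b = 0 := by
  choose! st h1 h2 h3 h4 h5 using (fun e a he => step_left hreg (S := S) e a he)
  let e : ℕ → S := fun n => Nat.rec 0 (fun n x => st x (a n)) n
  have e0 : e 0 = 0 := rfl
  have es : ∀ n, e (n + 1) = st (e n) (a n) := fun n => rfl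
  have hid : ∀ n, e n * e n = e n := by
    intro n
    induction n with
    | zero => rw [e0, mul_zero]
    | succ n ih => rw [es]; exact h1 _ _ ih
  refine ⟨e, hid, e0, fun n => ?_, fun n => ?_, fun n => ?_, ?_⟩
  · rw [es]; exact h2 _ _ (hid n)
  · rw [es]; exact h3 _ _ (hid n)
  · rw [es]; exact h4 _ _ (hid n)
  · intro b hb n
    induction n with
    | zero => rw [e0, zero_mul]
    | succ n ih => rw [es]; exact h5 _ _ (hid n) b ih (hb n)

lemma chain_mul {e : ℕ → S} (hid : ∀ n, e n * e n = e n) (h1 : ∀ n, e n * e (n + 1) = e n) :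
    ∀ m n, m ≤ n → e m * e n = e m := by
  intro m n hmn
  induction n, hmn using Nat.le_induction with
  | base => exact hid m
  | succ n hmn ih =>
    rw [← ih, mul_assoc, h1]

lemma chain_mul' {e : ℕ → S} (hid : ∀ n, e n * e n = e n) (h1 : ∀ n, e (n + 1) * e n = e n) :
    ∀ m n, m ≤ n → e n * e m = e m := by
  intro m n hmn
  induction n, hmn using Nat.le_induction with
  | base => exact hid m
  | succ n hmn ih =>
    rw [← ih, ← mul_assoc, h1]

/-- orthogonal idempotents -/
lemma diff_orth {e : ℕ → S} (h1 : ∀ m n, m ≤ n → e m * e n = e m)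
    (h2 : ∀ m n, m ≤ n → e n * e m = e m) (i j : ℕ) :
    (e (i + 1) - e i) * (e (j + 1) - e j) = if i = j then e (i + 1) - e i else 0 := by
  rcases lt_trichotomy i j with h | h | h
  · rw [if_neg h.ne, sub_mul, mul_sub, mul_sub, h1 _ _ (by omega), h1 _ _ (by omega),
      h1 _ _ (by omega), h1 _ _ (by omega)]
    simp
  · subst h
    rw [if_pos rfl, sub_mul, mul_sub, mul_sub, h1 _ _ le_rfl, h2 _ _ (Nat.le_succ i),
      h1 _ _ (Nat.le_succ i), h1 _ _ le_rfl]
    simp
  · rw [if_neg h.ne', sub_mul, mul_sub, mul_sub, h2 _ _ (by omega), h2 _ _ (by omega),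
      h2 _ _ (by omega), h2 _ _ (by omega)]
    simp

lemma chain_right (hreg : ∀ a : S, ∃ y, a = a * y * a) (b : ℕ → S) :
    ∃ e : ℕ → S, (∀ n, e n * e n = e n) ∧ e 0 = 0 ∧ (∀ n, e n * e (n + 1) = e n) ∧
      (∀ n, e (n + 1) * e n = e n) ∧ (∀ n, e (n + 1) * b n = b n) ∧
      ∀ c, (∀ i, c * b i = 0) → ∀ n, c * e n = 0 := by
  have hreg' : ∀ a : Sᵐᵒᵖ, ∃ y, a = a * y * a := by
    intro a
    obtain ⟨y, hy⟩ := hreg a.unop
    refine ⟨MulOpposite.op y, MulOpposite.unop_injective ?_⟩
    rw [MulOpposite.unop_mul, MulOpposite.unop_mul, MulOpposite.unop_op, ← mul_assoc]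
    exact hy
  obtain ⟨e, hid, e0, h1, h2, h3, h4⟩ := chain_left hreg' (fun n => MulOpposite.op (b n))
  refine ⟨fun n => (e n).unop, fun n => ?_, ?_, fun n => ?_, fun n => ?_, fun n => ?_, ?_⟩
  · exact congrArg MulOpposite.unop (hid n)
  · exact congrArg MulOpposite.unop e0
  · exact congrArg MulOpposite.unop (h2 n)
  · exact congrArg MulOpposite.unop (h1 n)
  · exact congrArg MulOpposite.unop (h3 n)
  · intro c hc n
    have := h4 (MulOpposite.op c) (fun i => congrArg MulOpposite.op (hc i)) n
    exact congrArg MulOpposite.unop this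

/-- the separation property from the annihilator property -/
lemma sep (hreg : ∀ a : S, ∃ y, a = a * y * a)
    (hPF : ∀ F G : ℕ → S,
      (∀ N, ∑ x ∈ Finset.HasAntidiagonal.antidiagonal N, F x.1 * G x.2 = 0) →
      ∃ k : ℕ → S, (∀ N, ∑ x ∈ Finset.HasAntidiagonal.antidiagonal N, F x.1 * k x.2 = F N) ∧
        ∀ N, ∑ x ∈ Finset.HasAntidiagonal.antidiagonal N, k x.1 * G x.2 = 0)
    (a b : ℕ → S) (hab : ∀ i j, a i * b j = 0) :
    ∃ e : S, e * e = e ∧ (∀ i, a i * e = a i) ∧ ∀ j, e * b j = 0 := by
  obtain ⟨e, hid, e0, h1, h2, h3, h4⟩ := chain_left hreg a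
  obtain ⟨g, gid, g0, k1, k2, k3, k4⟩ := chain_right hreg b
  have heb : ∀ n j, e n * b j = 0 := fun n j => h4 (b j) (fun i => hab i j) n
  have heg : ∀ n m, e n * g m = 0 := fun n m => k4 (e n) (fun j => heb n j) m
  have hoe := diff_orth (chain_mul hid h1) (chain_mul' hid h2)
  have hog := diff_orth (chain_mul gid k1) (chain_mul' gid k2)
  obtain ⟨k, hk1, hk2⟩ := hPF (fun n => e (n + 1) - e n) (fun n => g (n + 1) - g n) (by
    intro N
    apply Finset.sum_eq_zero
    intro x _
    simp only [sub_mul, mul_sub, heg]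
    simp)
  have hF : ∀ i, (e (i + 1) - e i) * k 0 = e (i + 1) - e i := by
    intro i
    have h5 := congrArg (fun z => (e (i + 1) - e i) * z) (hk1 i)
    simp only [Finset.mul_sum, ← mul_assoc, hoe, if_true] at h5
    rw [Finset.sum_eq_single (i, 0)] at h5
    · simpa using h5
    · intro x hx hne
      rw [Finset.HasAntidiagonal.mem_antidiagonal] at hx
      have hxi : i ≠ x.1 := by
        intro h6
        apply hne
        apply Prod.ext
        · exact h6.symm
        · simp only; omega
      rw [if_neg hxi, zero_mul]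
    · intro hx
      exact absurd (by simp [Finset.HasAntidiagonal.mem_antidiagonal]) hx
  have hG : ∀ j, k 0 * (g (j + 1) - g j) = 0 := by
    intro j
    have h5 := congrArg (fun z => z * (g (j + 1) - g j)) (hk2 j)
    simp only [Finset.sum_mul, mul_assoc, hog, zero_mul] at h5
    rw [Finset.sum_eq_single (0, j)] at h5
    · simpa using h5
    · intro x hx hne
      rw [Finset.HasAntidiagonal.mem_antidiagonal] at hx
      have hxi : x.2 ≠ j := by
        intro h6
        apply hne
        apply Prod.ext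
        · simp only; omega
        · exact h6
      rw [if_neg hxi, mul_zero]
    · intro hx
      exact absurd (by simp [Finset.HasAntidiagonal.mem_antidiagonal]) hx
  have he : ∀ n, e n * k 0 = e n := by
    intro n
    induction n with
    | zero => rw [e0, zero_mul]
    | succ n ih =>
      have := hF n
      rw [sub_mul, ih] at this
      exact sub_left_injective this
  have hg : ∀ n, k 0 * g n = 0 := by
    intro n
    induction n with
    | zero => rw [g0, mul_zero]
    | succ n ih =>
      have := hG n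
      rw [mul_sub, ih, sub_zero] at this
      exact this
  have ha : ∀ i, a i * k 0 = a i := by
    intro i
    calc a i * k 0 = a i * e (i + 1) * k 0 := by rw [h3]
      _ = a i * e (i + 1) := by rw [mul_assoc, he]
      _ = a i := h3 i
  have hb : ∀ j, k 0 * b j = 0 := by
    intro j
    calc k 0 * b j = k 0 * (g (j + 1) * b j) := by rw [k3]
      _ = 0 := by rw [← mul_assoc, hg, zero_mul]
  obtain ⟨w, hw⟩ := hreg (k 0)
  refine ⟨w * k 0, ?_, ?_, ?_⟩
  · calc w * k 0 * (w * k 0) = w * (k 0 * w * k 0) := by simp only [mul_assoc]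
      _ = w * k 0 := by rw [← hw]
  · intro i
    calc a i * (w * k 0) = a i * k 0 * (w * k 0) := by rw [ha]
      _ = a i * (k 0 * w * k 0) := by simp only [mul_assoc]
      _ = a i * k 0 := by rw [← hw]
      _ = a i := ha i
  · intro j
    rw [mul_assoc, hb, mul_zero]

end sep

/-- Necessary conditions for `w.gl.dim A[[x]] = 1`: the ring `A` is von Neumann regular, and every
matrix ring over `A` has the countable separation property: whenever `aᵢ bⱼ = 0` for all `i, j`,
a single idempotent `e` satisfies `aᵢ e = aᵢ` and `e bⱼ = 0` for all `i, j`. -/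
theorem result (A : Type u) [Ring A] (h : WeakGlDimEqOne (PowerSeries A)) :
    (∀ a : A, ∃ y, a = a * y * a) ∧
    ∀ (n : ℕ) (a b : ℕ → Matrix (Fin n) (Fin n) A), (∀ i j, a i * b j = 0) →
      ∃ e : Matrix (Fin n) (Fin n) A, e * e = e ∧ (∀ i, a i * e = a i) ∧ ∀ j, e * b j = 0 := by
  obtain ⟨h1, -⟩ := h
  have h1' : ∀ (M : Type u) [AddCommGroup M] [Module (PowerSeries A) M],
      FlatDimLEOne (PowerSeries A) M := fun M => h1 M
  refine ⟨?_, ?_⟩
  · intro a
    obtain ⟨M, hM⟩ : ∃ M : Matrix (Fin 1) (Fin 1) A, M 0 0 = a := ⟨fun _ _ => a, rfl⟩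
    obtain ⟨y, hy⟩ := regular_matrix h1' M
    refine ⟨y 0 0, ?_⟩
    have := congrFun (congrFun hy 0) 0
    rw [Matrix.mul_apply, Fin.sum_univ_one, Matrix.mul_apply, Fin.sum_univ_one, hM] at this
    exact this
  · intro n a b hab
    exact sep (regular_matrix h1') (pf_seq h1') a b hab

end Pool.Agent.Results.MP_d6aa4f_al.RegularSeparation
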