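import Mathlib

set_option autoImplicit false

open Cardinal

universe u v

namespace Pool.Agent.Results.MP_d6aa4f_al.SmallCardinality

/-- Every finitely generated right ideal of `R` is flat, that is `w.gl.dim R ≤ 1`, written with the
equational criterion: whenever `∑ aᵢ rᵢ = 0` there is a matrix `E` with `a E = a` and `E r = 0`. -/
def WGDLEOne (R : Type u) [Ring R] : Prop :=
  ∀ (n : ℕ) (a r : Fin n → R), ∑ i, a i * r i = 0 →
    ∃ E : Matrix (Fin n) (Fin n) R, (∀ j, ∑ i, a i * E i j = a j) ∧ ∀ i, ∑ j, E i j * r j = 0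

/-- `w.gl.dim R = 1`: it is at most one and not zero; it is zero exactly when `R` is von Neumann
regular (for the zero ring as well). -/
def WGDEqOne (R : Type u) [Ring R] : Prop :=
  WGDLEOne R ∧ ¬ ∀ c : R, ∃ y, c * y * c = c

/-- `w.gl.dim A⟦x⟧ ≤ 1` forces `A` to be von Neumann regular. -/
lemma vnr {A : Type u} [Ring A] (h : WGDLEOne (PowerSeries A)) (c : A) : ∃ y, c * y * c = c := by
  obtain ⟨E, hE1, hE2⟩ := h 2 ![PowerSeries.C c, PowerSeries.X] ![PowerSeries.X, -PowerSeries.C c]
    (by
      rw [Fin.sum_univ_two]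
      simp only [Matrix.cons_val_zero, Matrix.cons_val_one]
      rw [(PowerSeries.commute_X (PowerSeries.C c)).eq, mul_neg, add_neg_cancel])
  have h1 := hE1 0
  have h2 := hE2 0
  rw [Fin.sum_univ_two] at h1 h2
  simp only [Matrix.cons_val_zero, Matrix.cons_val_one] at h1 h2
  have h3 := congrArg (PowerSeries.coeff 0) h1
  have h4 := congrArg (PowerSeries.coeff 1) h2
  refine ⟨PowerSeries.coeff 1 (E 0 1), ?_⟩
  have e1 : c * PowerSeries.coeff 0 (E 0 0) = c := by
    simpa [PowerSeries.coeff_C_mul, PowerSeries.coeff_zero_X_mul] using h3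
  have e2 : PowerSeries.coeff 0 (E 0 0) = PowerSeries.coeff 1 (E 0 1) * c := by
    have h5 : PowerSeries.coeff 1 (E 0 0 * PowerSeries.X) -
        PowerSeries.coeff 1 (E 0 1 * PowerSeries.C c) = 0 := by
      have h8 : PowerSeries.coeff 1 (E 0 0 * PowerSeries.X + E 0 1 * -PowerSeries.C c) = 0 := by
        rw [h4, map_zero]
      rw [mul_neg, map_add, map_neg] at h8
      rw [sub_eq_add_neg]; exact h8
    have h6 : PowerSeries.coeff 1 (E 0 0 * PowerSeries.X) = PowerSeries.coeff 0 (E 0 0) :=
      PowerSeries.coeff_succ_mul_X 0 _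
    have h7 : PowerSeries.coeff 1 (E 0 1 * PowerSeries.C c) = PowerSeries.coeff 1 (E 0 1) * c :=
      PowerSeries.coeff_mul_C 1 _ c
    rw [h6, h7] at h5
    exact sub_eq_zero.mp h5
  rw [mul_assoc, ← e2, e1]

/-- Separation of a sequence of orthogonal idempotents. -/
lemma separate {A : Type u} [Ring A] (h : WGDLEOne (PowerSeries A)) (f : ℕ → A)
    (hid : ∀ i, f i * f i = f i) (horth : ∀ i j, i ≠ j → f i * f j = 0) (S : Set ℕ) :
    ∃ e : A, (∀ i ∈ S, f i * e = f i) ∧ ∀ j, j ∉ S → e * f j = 0 := by
  classical
  let a : PowerSeries A := PowerSeries.mk fun i => if i ∈ S then f i else 0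
  let g : PowerSeries A := PowerSeries.mk fun j => if j ∈ S then 0 else f j
  have hag : a * g = 0 := by
    ext m
    rw [PowerSeries.coeff_mul]
    simp only [map_zero]
    apply Finset.sum_eq_zero
    rintro ⟨i, j⟩ _
    simp only [a, g, PowerSeries.coeff_mk]
    by_cases hi : i ∈ S
    · by_cases hj : j ∈ S
      · simp [hj]
      · rw [if_pos hi, if_neg hj]
        exact horth i j (fun h => hj (h ▸ hi))
    · simp [hi]
  obtain ⟨E, hE1, hE2⟩ := h 1 ![a] ![g] (by simpa using hag)
  have h1 : a * E 0 0 = a := by simpa using hE1 0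
  have h2 : E 0 0 * g = 0 := by simpa using hE2 0
  refine ⟨PowerSeries.coeff 0 (E 0 0), ?_, ?_⟩
  · intro i hi
    have h3 : f i * PowerSeries.coeff i (a * E 0 0) = f i * PowerSeries.coeff i a := by rw [h1]
    rw [PowerSeries.coeff_mul, Finset.mul_sum, Finset.sum_eq_single (i, 0)] at h3
    · simpa [a, hi, ← mul_assoc, hid] using h3
    · rintro ⟨k, l⟩ hkl hne
      have hki : k ≠ i := by
        intro hki
        have h8 : k + l = i := Finset.HasAntidiagonal.mem_antidiagonal.mp hkl
        apply hne
        have h9 : l = 0 := by omega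
        rw [h9, hki]
      simp only [a, PowerSeries.coeff_mk]
      split_ifs
      · rw [← mul_assoc, horth i k hki.symm, zero_mul]
      · simp
    · intro hno
      exact absurd (by simp) hno
  · intro j hj
    have h3 : PowerSeries.coeff j (E 0 0 * g) * f j = 0 := by rw [h2]; simp
    rw [PowerSeries.coeff_mul, Finset.sum_mul, Finset.sum_eq_single (0, j)] at h3
    · simpa [g, hj, mul_assoc, hid] using h3
    · rintro ⟨k, l⟩ hkl hne
      have hlj : l ≠ j := by
        intro hlj
        have h8 : k + l = j := Finset.HasAntidiagonal.mem_antidiagonal.mp hkl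
        apply hne
        have h9 : k = 0 := by omega
        rw [h9, hlj]
      simp only [g, PowerSeries.coeff_mk]
      split_ifs
      · simp
      · rw [mul_assoc, horth l j hlj, mul_zero]
    · intro hno
      exact absurd (by simp) hno

/-- The separating element can be chosen idempotent. -/
lemma separate_idempotent {A : Type u} [Ring A] (h : WGDLEOne (PowerSeries A)) (f : ℕ → A)
    (hid : ∀ i, f i * f i = f i) (horth : ∀ i j, i ≠ j → f i * f j = 0) (S : Set ℕ) :
    ∃ e : A, e * e = e ∧ (∀ i ∈ S, f i * e = f i) ∧ ∀ j, j ∉ S → e * f j = 0 := by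
  obtain ⟨e, he1, he2⟩ := separate h f hid horth S
  obtain ⟨y, hy⟩ := vnr h e
  refine ⟨y * e, ?_, ?_, ?_⟩
  · calc y * e * (y * e) = y * (e * y * e) := by simp only [mul_assoc]
      _ = y * e := by rw [hy]
  · intro i hi
    calc f i * (y * e) = f i * e * (y * e) := by rw [he1 i hi]
      _ = f i * (e * y * e) := by simp only [mul_assoc]
      _ = f i := by rw [hy, he1 i hi]
  · intro j hj
    rw [mul_assoc, he2 j hj, mul_zero]

/-- Few idempotents exclude infinite orthogonal families. -/
lemma no_infinite {A : Type u} [Ring A] (hA : #{e : A // e * e = e} < 𝔠)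
    (h : WGDLEOne (PowerSeries A)) (f : ℕ → A)
    (hid : ∀ i, f i * f i = f i) (horth : ∀ i j, i ≠ j → f i * f j = 0) (hne : ∀ i, f i ≠ 0) :
    False := by
  choose e he0 he1 he2 using fun S : Set ℕ => separate_idempotent h f hid horth S
  have hinj : Function.Injective e := by
    have key : ∀ S T : Set ℕ, e S = e T → S ⊆ T := by
      intro S T hST i hi
      by_contra hiT
      have h1 := he1 S i hi
      have h2 := he2 T i hiT
      rw [← hST] at h2
      apply hne i
      calc f i = (f i * e S) * f i := by rw [h1, hid]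
        _ = 0 := by rw [mul_assoc, h2, mul_zero]
    intro S T hST
    exact Set.Subset.antisymm (key S T hST) (key T S hST.symm)
  have h1 := Cardinal.mk_le_of_injective
    (f := fun S : ULift.{u} (Set ℕ) => (⟨e S.down, he0 S.down⟩ : {e : A // e * e = e}))
    (fun S T hST => ULift.ext _ _ (hinj (congrArg Subtype.val hST)))
  have h2 : #(ULift.{u} (Set ℕ)) = 𝔠 := by simp
  rw [h2] at h1
  exact absurd h1 (not_le.mpr hA)

/-- Small dimension over a division ring excludes infinite orthogonal families. -/
lemma no_infinite_rank {K : Type v} [DivisionRing K] {A : Type u} [Ring A] [Module K A]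
    [IsScalarTower K A A] (hA : Module.rank K A < 𝔠)
    (h : WGDLEOne (PowerSeries A)) (f : ℕ → A)
    (hid : ∀ i, f i * f i = f i) (horth : ∀ i j, i ≠ j → f i * f j = 0) (hne : ∀ i, f i ≠ 0) :
    False := by
  classical
  let node : (ℕ → Bool) → ℕ → ℕ := fun x n => Encodable.encode ((List.range n).map x)
  have hnode : ∀ x y : ℕ → Bool, ∀ n m k : ℕ, k < n → node x n = node y m → x k = y k := by
    intro x y n m k hk hxy
    have h1 : (List.range n).map x = (List.range m).map y := Encodable.encode_injective hxy
    have h2 : n = m := by simpa using congrArg List.length h1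
    subst h2
    have h3 := List.map_inj_left.mp h1 k (List.mem_range.mpr hk)
    exact h3
  let S : (ℕ → Bool) → Set ℕ := fun x => Set.range (node x)
  choose e _ he1 he2 using fun x : ℕ → Bool => separate_idempotent h f hid horth (S x)
  have hli : LinearIndependent K e := by
    rw [linearIndependent_iff']
    intro s g hg x hx
    by_contra hgx
    have hk : ∀ y : ℕ → Bool, ∃ k, y ≠ x → y k ≠ x k := by
      intro y
      by_cases hyx : y = x
      · exact ⟨0, fun h => absurd hyx h⟩
      · obtain ⟨k, hk⟩ := Function.ne_iff.mp hyx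
        exact ⟨k, fun _ => hk⟩
    choose k hk using hk
    let n := s.sup k + 1
    have hmem : node x n ∈ S x := ⟨n, rfl⟩
    have hnot : ∀ y ∈ s, y ≠ x → node x n ∉ S y := by
      rintro y hy hyx ⟨m, hm⟩
      have h1 : k y < n := Nat.lt_succ_of_le (Finset.le_sup hy)
      exact hk y hyx (hnode x y n m (k y) h1 hm.symm).symm
    have h1 : (∑ y ∈ s, g y • e y) * f (node x n) = 0 := by rw [hg, zero_mul]
    rw [Finset.sum_mul, Finset.sum_eq_single x] at h1
    · rw [smul_mul_assoc] at h1
      have h2 : e x * f (node x n) = 0 := by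
        calc e x * f (node x n) = (g x)⁻¹ • g x • (e x * f (node x n)) := by
              rw [smul_smul, inv_mul_cancel₀ hgx, one_smul]
          _ = 0 := by rw [h1, smul_zero]
      apply hne (node x n)
      calc f (node x n) = f (node x n) * e x * f (node x n) := by rw [he1 x _ hmem, hid]
        _ = 0 := by rw [mul_assoc, h2, mul_zero]
    · intro y hy hyx
      rw [smul_mul_assoc, he2 y _ (hnot y hy hyx), smul_zero]
    · intro hx'
      exact absurd hx hx'
  have h1 := hli.cardinal_lift_le_rank
  have h2 : #(ℕ → Bool) = 𝔠 := by simp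
  rw [h2, Cardinal.lift_continuum, Cardinal.lift_uzero] at h1
  exact absurd h1 (not_le.mpr hA)

/-- In a von Neumann regular ring that is not semisimple there are infinitely many nonzero
orthogonal idempotents. -/
lemma exists_orthogonal {A : Type u} [Ring A] (hreg : ∀ c : A, ∃ y, c * y * c = c)
    (hss : ¬ IsSemisimpleRing A) :
    ∃ f : ℕ → A, (∀ i, f i * f i = f i) ∧ (∀ i j, i ≠ j → f i * f j = 0) ∧ ∀ i, f i ≠ 0 := by
  classical
  -- a left ideal not generated by an idempotent
  obtain ⟨L, hL⟩ : ∃ L : Submodule A A, ∀ e : A, e * e = e → e ∈ L → ∃ a ∈ L, a * e ≠ a := by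
    by_contra hno
    push Not at hno
    apply hss
    have hc : ComplementedLattice (Submodule A A) := by
      refine ⟨fun L => ?_⟩
      obtain ⟨e, he, heL, hall⟩ := hno L
      refine ⟨Submodule.span A {1 - e}, ?_⟩
      constructor
      · rw [Submodule.disjoint_def]
        intro x hx hx2
        obtain ⟨y, rfl⟩ := Submodule.mem_span_singleton.mp hx2
        have h1 := hall _ hx
        rw [smul_eq_mul, mul_assoc, sub_mul, one_mul, he, sub_self, mul_zero] at h1
        rw [smul_eq_mul]; exact h1.symm
      · rw [codisjoint_iff, eq_top_iff]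
        intro x _
        rw [Submodule.mem_sup]
        refine ⟨x * e, L.smul_mem x heL, x * (1 - e), ?_, by rw [← mul_add]; simp⟩
        exact Submodule.smul_mem _ x (Submodule.mem_span_singleton_self _)
    exact { toComplementedLattice := hc }
  have step : ∀ e : A, e * e = e → e ∈ L →
      ∃ g : A, g * g = g ∧ g * e = 0 ∧ e * g = 0 ∧ g ≠ 0 ∧ g ∈ L := by
    intro e he heL
    obtain ⟨a, haL, hae⟩ := hL e he heL
    obtain ⟨y, hy⟩ := hreg (a * (1 - e))
    have h1e : (1 - e) * (1 - e) = 1 - e := by
      rw [mul_sub, mul_one, sub_mul, one_mul, he, sub_self, sub_zero]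
    have hee : (1 - e) * e = 0 := by rw [sub_mul, one_mul, he, sub_self]
    have hee' : e * (1 - e) = 0 := by rw [mul_sub, mul_one, he, sub_self]
    have hmem : a * (1 - e) ∈ L := by
      rw [mul_sub, mul_one]
      exact L.sub_mem haL (L.smul_mem a heL)
    refine ⟨(1 - e) * y * (a * (1 - e)), ?_, ?_, ?_, ?_, ?_⟩
    · calc (1 - e) * y * (a * (1 - e)) * ((1 - e) * y * (a * (1 - e)))
          = (1 - e) * y * (a * ((1 - e) * (1 - e)) * y * (a * (1 - e))) := by
            simp only [mul_assoc]
        _ = (1 - e) * y * (a * (1 - e)) := by rw [h1e, hy]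
    · rw [mul_assoc, mul_assoc a, hee, mul_zero, mul_zero]
    · calc e * ((1 - e) * y * (a * (1 - e))) = (e * (1 - e)) * y * (a * (1 - e)) := by
            simp only [mul_assoc]
        _ = 0 := by rw [hee', zero_mul, zero_mul]
    · intro h0
      apply hae
      have h5 : a * (1 - e) = 0 := by
        calc a * (1 - e) = a * (1 - e) * y * (a * (1 - e)) := hy.symm
          _ = a * ((1 - e) * y * (a * (1 - e))) := by simp only [mul_assoc]
          _ = 0 := by rw [h0, mul_zero]
      rw [mul_sub, mul_one] at h5
      exact (sub_eq_zero.mp h5).symm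
    · exact L.smul_mem _ hmem
  choose! g hg1 hg2 hg3 hg4 hg5 using step
  let s : ℕ → {e : A // e * e = e ∧ e ∈ L} := fun n => Nat.rec ⟨0, by simp, L.zero_mem⟩
    (fun _ e => ⟨e.1 + g e.1, by
      have h1 := hg1 e.1 e.2.1 e.2.2
      have h2 := hg2 e.1 e.2.1 e.2.2
      have h3 := hg3 e.1 e.2.1 e.2.2
      rw [add_mul, mul_add, mul_add, e.2.1, h1, h2, h3]; simp,
      L.add_mem e.2.2 (hg5 e.1 e.2.1 e.2.2)⟩) n
  have hs : ∀ n, (s (n + 1)).1 = (s n).1 + g (s n).1 := fun n => rfl
  let f : ℕ → A := fun n => g (s n).1
  have hf1 : ∀ n, f n * f n = f n := fun n => hg1 _ (s n).2.1 (s n).2.2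
  have hfs : ∀ n, f n * (s n).1 = 0 := fun n => hg2 _ (s n).2.1 (s n).2.2
  have hsf : ∀ n, (s n).1 * f n = 0 := fun n => hg3 _ (s n).2.1 (s n).2.2
  have habs : ∀ i k, f i * (s (i + 1 + k)).1 = f i ∧ (s (i + 1 + k)).1 * f i = f i := by
    intro i k
    induction k with
    | zero =>
      rw [add_zero, hs]
      change f i * ((s i).1 + f i) = f i ∧ ((s i).1 + f i) * f i = f i
      rw [mul_add, add_mul, hfs, hsf, hf1, zero_add]
      exact ⟨rfl, rfl⟩
    | succ k ih =>
      rw [← add_assoc, hs]
      change f i * ((s (i + 1 + k)).1 + f (i + 1 + k)) = f i ∧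
        ((s (i + 1 + k)).1 + f (i + 1 + k)) * f i = f i
      have h1 : f i * f (i + 1 + k) = 0 := by
        rw [← ih.1, mul_assoc, hsf, mul_zero]
      have h2 : f (i + 1 + k) * f i = 0 := by
        rw [← ih.2, ← mul_assoc, hfs, zero_mul]
      rw [mul_add, add_mul, ih.1, ih.2, h1, h2, add_zero]
      exact ⟨rfl, rfl⟩
  refine ⟨f, hf1, ?_, fun n => hg4 _ (s n).2.1 (s n).2.2⟩
  intro i j hij
  rcases lt_or_gt_of_ne hij with h | h
  · obtain ⟨k, rfl⟩ := Nat.exists_eq_add_of_le (Nat.succ_le_of_lt h)
    change f i * f (i + 1 + k) = 0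
    rw [← (habs i k).1, mul_assoc, hsf, mul_zero]
  · obtain ⟨k, rfl⟩ := Nat.exists_eq_add_of_le (Nat.succ_le_of_lt h)
    change f (j + 1 + k) * f j = 0
    rw [← (habs j k).2, ← mul_assoc, hfs, zero_mul]

/-- A square matrix of power series with identity constant term has a left inverse. -/
lemma exists_leftInverse {A : Type u} [Ring A] {n : ℕ} (G : Matrix (Fin n) (Fin n) (PowerSeries A))
    (hG : ∀ i j, PowerSeries.coeff 0 (G i j) = (1 : Matrix (Fin n) (Fin n) A) i j) :
    ∃ H : Matrix (Fin n) (Fin n) (PowerSeries A), H * G = 1 := by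
  classical
  let φ : PowerSeries (Matrix (Fin n) (Fin n) A) :=
    PowerSeries.mk fun m => Matrix.of fun i j => PowerSeries.coeff m (G i j)
  have hφ : PowerSeries.constantCoeff φ = ((1 : (Matrix (Fin n) (Fin n) A)ˣ) : Matrix _ _ A) := by
    rw [← PowerSeries.coeff_zero_eq_constantCoeff_apply]
    ext i j
    simp only [φ, PowerSeries.coeff_mk, Matrix.of_apply, hG, Units.val_one]
  have hinv := PowerSeries.invOfUnit_mul φ 1 hφ
  set ψ := PowerSeries.invOfUnit φ 1
  refine ⟨Matrix.of fun i j => PowerSeries.mk fun m => (PowerSeries.coeff m ψ) i j, ?_⟩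
  ext i j m
  have h1 := congrArg (fun z => (PowerSeries.coeff m z) i j) hinv
  simp only [PowerSeries.coeff_mul, Matrix.sum_apply, Matrix.mul_apply] at h1
  rw [Matrix.mul_apply, map_sum]
  simp only [PowerSeries.coeff_mul, Matrix.of_apply, PowerSeries.coeff_mk]
  rw [Finset.sum_comm]
  simp only [φ, PowerSeries.coeff_mk, Matrix.of_apply] at h1
  rw [h1, PowerSeries.coeff_one]
  by_cases hij : i = j
  · subst hij
    by_cases hm : m = 0
    · simp [hm]
    · rw [if_neg hm, Matrix.one_apply_eq, PowerSeries.coeff_one, if_neg hm, Matrix.zero_apply]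
  · by_cases hm : m = 0
    · simp [hm, hij]
    · simp [hm, hij]

/-- Semisimple rings: the converse direction. -/
theorem backward (A : Type u) [Ring A] [IsSemisimpleRing A] : WGDLEOne (PowerSeries A) := by
  classical
  intro n a r har
  -- constant terms of the left annihilator of `r`
  let W : Submodule A (Fin n → A) :=
    { carrier := {v | ∃ s : Fin n → PowerSeries A, ∑ j, s j * r j = 0 ∧
        ∀ j, PowerSeries.coeff 0 (s j) = v j}
      add_mem' := by
        rintro v w ⟨s, hs1, hs2⟩ ⟨t, ht1, ht2⟩
        refine ⟨s + t, ?_, ?_⟩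
        · simp only [Pi.add_apply, add_mul, Finset.sum_add_distrib, hs1, ht1, add_zero]
        · intro j
          rw [Pi.add_apply, map_add, hs2, ht2, Pi.add_apply]
      zero_mem' := ⟨0, by simp, by simp⟩
      smul_mem' := by
        rintro c v ⟨s, hs1, hs2⟩
        refine ⟨fun j => PowerSeries.C c * s j, ?_, ?_⟩
        · simp only [mul_assoc, ← Finset.mul_sum, hs1, mul_zero]
        · intro j
          rw [PowerSeries.coeff_C_mul, hs2, Pi.smul_apply, smul_eq_mul] }
  obtain ⟨p, hp⟩ := IsSemisimpleModule.extension_property W.subtype W.injective_subtype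
    (LinearMap.id : W →ₗ[A] W)
  have hpW : ∀ v ∈ W, ((p v : W) : Fin n → A) = v := by
    intro v hv
    have h1 := LinearMap.congr_fun hp ⟨v, hv⟩
    have h2 : p v = ⟨v, hv⟩ := h1
    rw [h2]
  have hmem : ∀ i : Fin n, ((p fun j => if i = j then 1 else 0 : W) : Fin n → A) ∈ W :=
    fun i => (p _).2
  choose S hS1 hS2 using hmem
  have hS1' : ∀ i, ∑ j, S i j * r j = 0 := fun i => hS1 i
  let F : Matrix (Fin n) (Fin n) A := fun i => ((p fun j => if i = j then 1 else 0 : W) : Fin n → A)
  have hF : ∀ i j, PowerSeries.coeff 0 (S i j) = F i j := fun i j => hS2 i j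
  have hpF : ∀ v : Fin n → A, ∀ j, ((p v : W) : Fin n → A) j = ∑ i, v i * F i j := by
    intro v j
    rw [LinearMap.pi_apply_eq_sum_univ p v]
    simp [F]
  let D : Matrix (Fin n) (Fin n) (PowerSeries A) :=
    Matrix.of fun i j => PowerSeries.C ((1 : Matrix (Fin n) (Fin n) A) i j - F i j)
  let S' : Matrix (Fin n) (Fin n) (PowerSeries A) := Matrix.of S
  obtain ⟨H, hH⟩ := exists_leftInverse (S' + D) (by
    intro i j
    simp only [Matrix.add_apply, S', D, Matrix.of_apply, map_add, hF]
    simp)
  refine ⟨H * S', ?_, ?_⟩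
  swap
  · intro i
    have h1 : ((H * S').mulVec r) i = 0 := by
      rw [← Matrix.mulVec_mulVec]
      have h2 : S'.mulVec r = 0 := by
        ext1 i
        exact hS1' i
      rw [h2, Matrix.mulVec_zero]
      rfl
    exact h1
  · have h0 : Matrix.vecMul a (H * S') = a := by
      rw [← Matrix.vecMul_vecMul]
      set b := Matrix.vecMul a H with hb
      have h1 : a = Matrix.vecMul b S' + Matrix.vecMul b D := by
        rw [← Matrix.vecMul_add, hb, Matrix.vecMul_vecMul, hH, Matrix.vecMul_one]
      set d := Matrix.vecMul b D with hd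
      have h2 : ∑ j, d j * r j = 0 := by
        have h3 : ∑ j, (Matrix.vecMul b S') j * r j = 0 := by
          have h4 : dotProduct (Matrix.vecMul b S') r = dotProduct b (S'.mulVec r) :=
            (Matrix.dotProduct_mulVec b S' r).symm
          have h5 : S'.mulVec r = 0 := by
            ext1 i
            exact hS1' i
          rw [h5, dotProduct_zero] at h4
          exact h4
        have h6 : ∑ j, (Matrix.vecMul b S' j + d j) * r j = 0 := by
          rw [← har]
          apply Finset.sum_congr rfl
          intro j _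
          rw [← Pi.add_apply, ← h1]
        simp only [add_mul, Finset.sum_add_distrib, h3, zero_add] at h6
        exact h6
      have hdc : ∀ m j, PowerSeries.coeff m (d j) =
          ((fun i => PowerSeries.coeff m (b i)) - ((p fun i => PowerSeries.coeff m (b i) : W) :
            Fin n → A)) j := by
        intro m j
        rw [Pi.sub_apply, hpF]
        simp only [hd, Matrix.vecMul, dotProduct, D, Matrix.of_apply, map_sum,
          PowerSeries.coeff_mul_C, mul_sub, Finset.sum_sub_distrib]
        simp [Matrix.one_apply]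
      have hzero : ∀ m, ∀ j, PowerSeries.coeff m (d j) = 0 := by
        intro m
        induction m using Nat.strong_induction_on with
        | _ m ih =>
          have hdj : ∀ j, d j = PowerSeries.X ^ m *
              PowerSeries.mk fun k => PowerSeries.coeff (k + m) (d j) := by
            intro j
            ext k
            rw [PowerSeries.coeff_X_pow_mul']
            split_ifs with hk
            · rw [PowerSeries.coeff_mk, Nat.sub_add_cancel hk]
            · exact ih k (not_le.mp hk) j
          have hd' : ∑ j, (PowerSeries.mk fun k => PowerSeries.coeff (k + m) (d j)) * r j = 0 := by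
            have h7 : PowerSeries.X ^ m *
                ∑ j, (PowerSeries.mk fun k => PowerSeries.coeff (k + m) (d j)) * r j = 0 := by
              rw [Finset.mul_sum, ← h2]
              apply Finset.sum_congr rfl
              intro j _
              rw [← mul_assoc, ← hdj]
            ext k
            have h8 := congrArg (PowerSeries.coeff (k + m)) h7
            rw [PowerSeries.coeff_X_pow_mul, map_zero] at h8
            rw [h8, map_zero]
          have hvW : (fun j => PowerSeries.coeff m (d j)) ∈ W := by
            refine ⟨_, hd', ?_⟩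
            intro j
            rw [PowerSeries.coeff_mk, zero_add]
          have h9 := hpW _ hvW
          have h10 : (fun j => PowerSeries.coeff m (d j)) =
              (fun i => PowerSeries.coeff m (b i)) - ((p fun i => PowerSeries.coeff m (b i) : W) :
            Fin n → A) := by
            ext j
            exact hdc m j
          have h11 : p ((fun i => PowerSeries.coeff m (b i)) -
              ((p fun i => PowerSeries.coeff m (b i) : W) : Fin n → A)) = 0 := by
            rw [map_sub, sub_eq_zero]
            apply Subtype.ext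
            exact (hpW _ (p _).2).symm
          rw [← h10] at h11
          rw [h11] at h9
          intro j
          have h12 := congrFun h9 j
          exact h12.symm
      have hd0 : d = 0 := by
        ext j m
        rw [hzero m j]
        simp
      rw [hd0, add_zero] at h1
      exact h1.symm
    intro j
    exact congrFun h0 j

/-- The power series ring over a nonzero ring is not von Neumann regular. -/
lemma not_vnr {A : Type u} [Ring A] [Nontrivial A] :
    ¬ ∀ c : PowerSeries A, ∃ y, c * y * c = c := by
  intro h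
  obtain ⟨y, hy⟩ := h PowerSeries.X
  have h1 := congrArg (PowerSeries.coeff (0 + 1)) hy
  rw [PowerSeries.coeff_succ_mul_X, PowerSeries.coeff_zero_X_mul, zero_add,
    PowerSeries.coeff_one_X] at h1
  exact zero_ne_one h1

lemma vnr_of_subsingleton {A : Type u} [Ring A] [Subsingleton A] :
    ∀ c : PowerSeries A, ∃ y, c * y * c = c := by
  intro c
  refine ⟨0, ?_⟩
  ext n
  exact Subsingleton.elim _ _

lemma equiv_of_forward {A : Type u} [Ring A]
    (hf : WGDLEOne (PowerSeries A) → IsSemisimpleRing A) :
    WGDEqOne (PowerSeries A) ↔ Nontrivial A ∧ IsSemisimpleRing A := by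
  constructor
  · rintro ⟨h1, h2⟩
    refine ⟨?_, hf h1⟩
    by_contra hn
    rw [not_nontrivial_iff_subsingleton] at hn
    exact h2 vnr_of_subsingleton
  · rintro ⟨hn, hs⟩
    exact ⟨backward A, not_vnr⟩

/-- Rings with fewer than continuum many idempotents, and rings of dimension less than the
continuum over a division ring: the weak global dimension of `A⟦x⟧` is one exactly when `A` is a
nonzero semisimple ring. -/
theorem result :
    (∀ (A : Type u) [Ring A], #{e : A // e * e = e} < 𝔠 →
      (WGDEqOne (PowerSeries A) ↔ Nontrivial A ∧ IsSemisimpleRing A)) ∧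
    (∀ (K : Type v) [DivisionRing K] (A : Type u) [Ring A] [Module K A] [IsScalarTower K A A],
      Module.rank K A < 𝔠 →
      (WGDEqOne (PowerSeries A) ↔ Nontrivial A ∧ IsSemisimpleRing A)) := by
  refine ⟨?_, ?_⟩
  · intro A _ hA
    apply equiv_of_forward
    intro h
    by_contra hss
    obtain ⟨f, h1, h2, h3⟩ := exists_orthogonal (vnr h) hss
    exact no_infinite hA h f h1 h2 h3
  · intro K _ A _ _ _ hA
    apply equiv_of_forward
    intro h
    by_contra hss
    obtain ⟨f, h1, h2, h3⟩ := exists_orthogonal (vnr h) hss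
    exact no_infinite_rank hA h f h1 h2 h3

end Pool.Agent.Results.MP_d6aa4f_al.SmallCardinality
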